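import Pool.Agent.U688.DE.Cpt1

/-!
# JobCpt of MP_e4073d_mp: the trace on the walls is a limit of operators of finite rank
-/

set_option autoImplicit false

open MeasureTheory Filter Topology Complex Set
open scoped ComplexConjugate InnerProductSpace Function

namespace Pool.Agent.U688.DE

open Pool.Agent.U469.DE

noncomputable section

lemma sq_fin (a c h : ℝ) : (volume : Measure (ℝ × ℝ)) (Sq a c h) ≠ ⊤ := by
  rw [Sq, Measure.volume_eq_prod, Measure.prod_prod, Real.volume_Ioc, Real.volume_Ioc]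
  exact ENNReal.mul_ne_top ENNReal.ofReal_ne_top ENNReal.ofReal_ne_top

lemma ioc_fin (c h : ℝ) : (volume : Measure ℝ) (Ioc c (c + h)) ≠ ⊤ := by
  rw [Real.volume_Ioc]; exact ENNReal.ofReal_ne_top

/-- the mean over the square as an element of `L²` -/
def mv (a c h : ℝ) : Lp ℂ 2 (volume : Measure (ℝ × ℝ)) :=
  indicatorConstLp 2 (sq_meas a c h) (sq_fin a c h) (((h * h)⁻¹ : ℝ) : ℂ)

/-- the indicator of the interval -/
def vv (c h : ℝ) : Lp ℂ 2 (volume : Measure ℝ) :=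
  indicatorConstLp 2 measurableSet_Ioc (ioc_fin c h) (1 : ℂ)

/-- the operator of rank one -/
def Rk (a c h : ℝ) : Lp ℂ 2 (volume : Measure (ℝ × ℝ)) →L[ℂ] Lp ℂ 2 (volume : Measure ℝ) :=
  (ContinuousLinearMap.toSpanSingleton ℂ (vv c h)).comp (innerSL ℂ (mv a c h))

lemma rk_compact (a c h : ℝ) : IsCompactOperator (Rk a c h) :=
  (isCompactOperator_of_locallyCompactSpace_rng (ContinuousLinearMap.toSpanSingleton ℂ (vv c h))).comp_clm _

lemma rk_apply (a c h : ℝ) {φ : ℝ × ℝ → ℂ} (h1 : MemLp φ 2 (volume : Measure (ℝ × ℝ))) :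
    Rk a c h h1.toLp = ((((h * h)⁻¹ : ℝ) : ℂ) * ∫ p in Sq a c h, φ p) • vv c h := by
  have e : Rk a c h h1.toLp = (inner ℂ (mv a c h) h1.toLp) • vv c h := by
    simp [Rk, ContinuousLinearMap.toSpanSingleton_apply]
  rw [e]
  congr 1
  rw [mv, L2.inner_indicatorConstLp_eq_inner_setIntegral]
  have e2 : ∫ x in Sq a c h, (h1.toLp : ℝ × ℝ → ℂ) x = ∫ p in Sq a c h, φ p := by
    apply integral_congr_ae
    exact ae_restrict_of_ae h1.coeFn_toLp
  rw [e2, RCLike.inner_apply, Complex.conj_ofReal, mul_comm]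

/-- the operator of finite rank -/
def Kf (a p h : ℝ) (N : ℕ) : Lp ℂ 2 (volume : Measure (ℝ × ℝ)) →L[ℂ] Lp ℂ 2 (volume : Measure ℝ) :=
  ∑ k ∈ Finset.range N, Rk a (p + k * h) h

lemma kf_compact (a p h : ℝ) (N : ℕ) : IsCompactOperator (Kf a p h N) := by
  have : Kf a p h N ∈ compactOperator (RingHom.id ℂ) (Lp ℂ 2 (volume : Measure (ℝ × ℝ)))
      (Lp ℂ 2 (volume : Measure ℝ)) :=
    Submodule.sum_mem _ fun k _ => rk_compact a _ h
  exact this

/-- one wall -/
lemma wall (a p q ε : ℝ) (hpq : p ≤ q) (hε : 0 < ε) :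
    ∃ K : Lp ℂ 2 (volume : Measure (ℝ × ℝ)) →L[ℂ] Lp ℂ 2 (volume : Measure ℝ), IsCompactOperator K ∧
      ∀ φ ∈ Core, ∀ (h1 : MemLp φ 2 (volume : Measure (ℝ × ℝ)))
        (h2 : MemLp ((Ioc p q).indicator fun y => φ (a, y)) 2 volume),
        ‖h2.toLp - K h1.toLp‖ ^ 2 ≤ ε * (nrm φ + gX φ + gY φ) := by
  have hn0 : ∀ φ : ℝ × ℝ → ℂ, 0 ≤ nrm φ := fun φ => integral_nonneg fun _ => sq_nonneg _
  have hx0 : ∀ φ : ℝ × ℝ → ℂ, 0 ≤ gX φ := fun φ => integral_nonneg fun _ => sq_nonneg _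
  have hy0 : ∀ φ : ℝ × ℝ → ℂ, 0 ≤ gY φ := fun φ => integral_nonneg fun _ => sq_nonneg _
  rcases hpq.eq_or_lt with rfl | hpq
  · refine ⟨0, isCompactOperator_zero, fun φ _ h1 h2 => ?_⟩
    have e : h2.toLp = 0 := by
      rw [Lp.eq_zero_iff_ae_eq_zero]
      filter_upwards [h2.coeFn_toLp] with y hy
      rw [hy]
      simp
    have q1 := hn0 φ
    have q2 := hx0 φ
    have q3 := hy0 φ
    have q4 : 0 ≤ ε * (nrm φ + gX φ + gY φ) := mul_nonneg hε.le (by linarith)
    rw [e]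
    simpa using q4
  obtain ⟨N, hN⟩ := exists_nat_gt (2 * (q - p) / ε)
  have hN0 : (0 : ℝ) < N := lt_trans (div_pos (by linarith) hε) hN
  obtain ⟨h, hh⟩ : ∃ h, h = (q - p) / N := ⟨_, rfl⟩
  have hhpos : 0 < h := by rw [hh]; exact div_pos (by linarith) hN0
  have hhN : N * h = q - p := by rw [hh]; field_simp
  have hhε : 2 * h ≤ ε := by
    rw [hh, ← mul_div_assoc, div_le_iff₀ hN0]
    rw [div_lt_iff₀ hε] at hN
    linarith
  refine ⟨Kf a p h N, kf_compact a p h N, fun φ hφ h1 h2 => ?_⟩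
  obtain ⟨c, hc⟩ : ∃ c : ℕ → ℝ, c = fun k : ℕ => p + (k : ℝ) * h := ⟨_, rfl⟩
  have hcs : ∀ k, c (k + 1) = c k + h := by intro k; simp only [hc]; push_cast; ring
  have hmono : Monotone c := monotone_nat_of_le_succ fun k => by rw [hcs]; linarith
  have hc0 : c 0 = p := by simp [hc]
  have hcN : c N = q := by simp only [hc]; linarith
  obtain ⟨A, hA⟩ : ∃ A : ℕ → ℂ, A = fun k => (((h * h)⁻¹ : ℝ) : ℂ) * ∫ p in Sq a (c k) h, φ p :=
    ⟨_, rfl⟩
  have hunion : ⋃ k ∈ Finset.range N, Ioc (c k) (c k + h) = Ioc p q := by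
    have := hmono.biUnion_Ico_Ioc_map_succ 0 N
    rw [hc0, hcN] at this
    rw [← this]
    apply Set.ext
    intro y
    simp only [mem_iUnion, Finset.mem_range, exists_prop, mem_Ico, Nat.succ_eq_succ, Nat.succ_eq_add_one,
      zero_le, true_and, hcs]
  have hdisj : Pairwise (Disjoint on fun k => Ioc (c k) (c k + h)) := by
    have := hmono.pairwise_disjoint_on_Ioc_succ
    simp only [Nat.succ_eq_succ, Nat.succ_eq_add_one, hcs] at this
    exact this
  obtain ⟨F, hF⟩ : ∃ F : ℝ → ℂ, F = fun y => (Ioc p q).indicator (fun y => φ (a, y)) y -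
      ∑ k ∈ Finset.range N, A k * (Ioc (c k) (c k + h)).indicator (fun _ => (1 : ℂ)) y := ⟨_, rfl⟩
  have hFout : ∀ y, y ∉ Ioc p q → F y = 0 := by
    intro y hy
    simp only [hF]
    rw [indicator_of_notMem hy, Finset.sum_eq_zero, sub_zero]
    intro k hk
    rw [indicator_of_notMem, mul_zero]
    intro hyk
    apply hy
    rw [← hunion]
    exact mem_biUnion hk hyk
  have hFin : ∀ k ∈ Finset.range N, ∀ y ∈ Ioc (c k) (c k + h), F y = φ (a, y) - A k := by
    intro k hk y hy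
    have hy' : y ∈ Ioc p q := by rw [← hunion]; exact mem_biUnion hk hy
    simp only [hF]
    rw [indicator_of_mem hy', Finset.sum_eq_single k, indicator_of_mem hy, mul_one]
    · intro j _ hjk
      rw [indicator_of_notMem, mul_zero]
      intro hyj
      exact (Set.disjoint_left.1 (hdisj hjk)) hyj hy
    · intro hk'
      exact absurd hk hk'
  have hae : (fun y => (h2.toLp - Kf a p h N h1.toLp : Lp ℂ 2 (volume : Measure ℝ)) y) =ᵐ[volume] F := by
    have e : Kf a p h N h1.toLp = ∑ k ∈ Finset.range N, A k • vv (c k) h := by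
      rw [Kf, sum_apply]
      refine Finset.sum_congr rfl fun k _ => ?_
      rw [rk_apply]
      simp only [hA, hc]
    rw [e]
    filter_upwards [Lp.coeFn_sub (h2.toLp) (∑ k ∈ Finset.range N, A k • vv (c k) h), h2.coeFn_toLp,
      Lp.coeFn_finsetSum (Finset.range N) (fun k => A k • vv (c k) h),
      ae_all_iff.2 fun k => Lp.coeFn_smul (A k) (vv (c k) h),
      ae_all_iff.2 fun k => indicatorConstLp_coeFn (p := 2) (hs := measurableSet_Ioc)
        (hμs := ioc_fin (c k) h) (c := (1 : ℂ))] with y y1 y2 y3 y4 y5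
    rw [y1, Pi.sub_apply, y2, y3]
    simp only [hF]
    congr 1
    rw [Finset.sum_apply]
    refine Finset.sum_congr rfl fun k _ => ?_
    rw [y4 k, Pi.smul_apply, smul_eq_mul]
    congr 1
    exact y5 k
  have hφc : Continuous φ := hφ.1.continuous
  have hg : Integrable (fun p => ‖dX φ p‖ ^ 2 + ‖dY φ p‖ ^ 2) (volume : Measure (ℝ × ℝ)) :=
    (int_sq (contX hφ) (suppX hφ)).add (int_sq (contY hφ) (suppY hφ))
  rw [norm_sq_eq, integral_congr_ae (g := fun y => ‖F y‖ ^ 2) (by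
    filter_upwards [hae] with y hy
    rw [← hy]), ← setIntegral_eq_integral_of_forall_compl_eq_zero (s := Ioc p q) (by
    intro y hy
    rw [hFout y hy]; simp), ← hunion, integral_biUnion_finset _ (fun _ _ => measurableSet_Ioc)
    (hdisj.set_pairwise _) (by
    intro k hk
    have : IntegrableOn (fun y => ‖φ (a, y) - A k‖ ^ 2) (Ioc (c k) (c k + h)) :=
      Continuous.integrableOn_Ioc (by fun_prop)
    refine this.congr_fun ?_ measurableSet_Ioc
    intro y hy
    simp only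
    rw [hFin k hk y hy])]
  calc ∑ k ∈ Finset.range N, ∫ y in Ioc (c k) (c k + h), ‖F y‖ ^ 2
      ≤ ∑ k ∈ Finset.range N, 2 * h * ∫ p in Sq a (c k) h, (‖dX φ p‖ ^ 2 + ‖dY φ p‖ ^ 2) := by
        refine Finset.sum_le_sum fun k hk => ?_
        refine le_trans (le_of_eq ?_) (piece hφ a (c k) h hhpos)
        apply setIntegral_congr_fun measurableSet_Ioc
        intro y hy
        simp only
        rw [hFin k hk y hy, hA]
    _ = 2 * h * ∫ p in ⋃ k ∈ Finset.range N, Sq a (c k) h, (‖dX φ p‖ ^ 2 + ‖dY φ p‖ ^ 2) := by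
        rw [integral_biUnion_finset _ (fun _ _ => sq_meas _ _ _) _ (fun _ _ => hg.integrableOn),
          Finset.mul_sum]
        intro i _ j _ hij
        exact Set.disjoint_prod.2 (Or.inr (hdisj hij))
    _ ≤ 2 * h * ∫ p, (‖dX φ p‖ ^ 2 + ‖dY φ p‖ ^ 2) := by
        apply mul_le_mul_of_nonneg_left _ (by positivity)
        exact setIntegral_le_integral hg (ae_of_all _ fun _ => by positivity)
    _ = 2 * h * (gX φ + gY φ) := by
        rw [integral_add (int_sq (contX hφ) (suppX hφ)) (int_sq (contY hφ) (suppY hφ))]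
        rfl
    _ ≤ ε * (nrm φ + gX φ + gY φ) := by
        have := hn0 φ
        have := hx0 φ
        have := hy0 φ
        nlinarith

lemma memLp_wall {φ : ℝ × ℝ → ℂ} (hφ : φ ∈ Core) (a p q : ℝ) :
    MemLp ((Ioc p q).indicator fun y => φ (a, y)) 2 (volume : Measure ℝ) := by
  have hφc : Continuous φ := hφ.1.continuous
  have hc : Continuous fun y => φ (a, y) := by fun_prop
  rw [memLp_indicator_iff_restrict measurableSet_Ioc]
  obtain ⟨C, hC⟩ := (isCompact_Icc (a := p) (b := q)).exists_bound_of_continuousOn hc.continuousOn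
  refine MemLp.of_bound hc.aestronglyMeasurable C ?_
  rw [ae_restrict_iff' measurableSet_Ioc]
  exact ae_of_all _ fun y hy => hC y (Ioc_subset_Icc_self hy)

/-- (CPT) -/
theorem jobCpt : JobCpt := by
  intro σ t ε _ ht hε
  obtain ⟨K₁, hK₁, h₁⟩ := wall (σ * rad) (-ste) 0 (ε / 4) (by norm_num [ste]) (by positivity)
  obtain ⟨K₂, hK₂, h₂⟩ := wall (σ * del) 0 t (ε / 4) ht.1 (by positivity)
  refine ⟨K₁ + K₂, hK₁.add hK₂, fun φ hφ h1 h2 => ?_⟩
  have m₁ := memLp_wall hφ (σ * rad) (-ste) 0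
  have m₂ := memLp_wall hφ (σ * del) 0 t
  have hste : (0 : ℝ) < ste := by norm_num [ste]
  have e : h2.toLp = m₁.toLp + m₂.toLp := by
    rw [← MemLp.toLp_add]
    apply MemLp.toLp_congr
    have n0 : ∀ᵐ y : ℝ, y ≠ 0 := by simp [ae_iff]
    have nt : ∀ᵐ y : ℝ, y ≠ t := by simp [ae_iff]
    filter_upwards [n0, nt] with y hy0 hyt
    simp only [wfun, Pi.add_apply]
    rcases lt_or_gt_of_ne hy0 with hy | hy
    · rw [indicator_of_notMem (s := Ioc 0 t) (fun h => absurd h.1 (not_lt.2 hy.le)), add_zero]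
      by_cases hs : -ste < y
      · rw [indicator_of_mem (s := Ioo (-ste) t) ⟨hs, lt_of_lt_of_le hy ht.1⟩,
          indicator_of_mem (s := Ioc (-ste) 0) ⟨hs, hy.le⟩, pos, if_pos hy]
      · rw [indicator_of_notMem (s := Ioo (-ste) t) (fun h => hs h.1),
          indicator_of_notMem (s := Ioc (-ste) 0) (fun h => hs h.1)]
    · rw [indicator_of_notMem (s := Ioc (-ste) 0) (fun h => absurd h.2 (not_le.2 hy)), zero_add]
      by_cases hs : y < t
      · rw [indicator_of_mem (s := Ioo (-ste) t) ⟨by linarith, hs⟩,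
          indicator_of_mem (s := Ioc 0 t) ⟨hy, hs.le⟩, pos, if_neg (not_lt.2 hy.le)]
      · rw [indicator_of_notMem (s := Ioo (-ste) t) (fun h => hs h.2),
          indicator_of_notMem (s := Ioc 0 t) (fun h => hs (lt_of_le_of_ne h.2 hyt))]
  have b₁ := h₁ φ hφ h1 m₁
  have b₂ := h₂ φ hφ h1 m₂
  have e2 : h2.toLp - (K₁ + K₂) h1.toLp = (m₁.toLp - K₁ h1.toLp) + (m₂.toLp - K₂ h1.toLp) := by
    rw [e, add_apply]
    abel
  rw [e2]
  have b₃ := norm_add_le (m₁.toLp - K₁ h1.toLp) (m₂.toLp - K₂ h1.toLp)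
  have b₄ := norm_nonneg ((m₁.toLp - K₁ h1.toLp) + (m₂.toLp - K₂ h1.toLp))
  have b₅ : ‖(m₁.toLp - K₁ h1.toLp) + (m₂.toLp - K₂ h1.toLp)‖ ^ 2 ≤
      (‖m₁.toLp - K₁ h1.toLp‖ + ‖m₂.toLp - K₂ h1.toLp‖) ^ 2 := pow_le_pow_left₀ b₄ b₃ 2
  nlinarith [sq_nonneg (‖m₁.toLp - K₁ h1.toLp‖ - ‖m₂.toLp - K₂ h1.toLp‖)]

end

end Pool.Agent.U688.DE
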