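import Pool.Agent.U469.DE.S

/-!
# Averages over squares (for JobCpt of MP_e4073d_mp)
-/

set_option autoImplicit false

open MeasureTheory Filter Topology Complex Set
open scoped ComplexConjugate InnerProductSpace Function

namespace Pool.Agent.U688.DE

open Pool.Agent.U469.DE

noncomputable section

lemma norm_sq_eq {α : Type*} [MeasurableSpace α] {μ : Measure α} (f : Lp ℂ 2 μ) :
    ‖f‖ ^ 2 = ∫ x, ‖f x‖ ^ 2 ∂μ := by
  have h : inner ℂ f f = ((‖f‖ : ℝ) : ℂ) ^ 2 := inner_self_eq_norm_sq_to_K f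
  rw [L2.inner_def] at h
  have h2 : (∫ a, inner ℂ (f a) (f a) ∂μ) = ((∫ x, ‖f x‖ ^ 2 ∂μ : ℝ) : ℂ) := by
    rw [← integral_complex_ofReal]
    apply integral_congr_ae
    filter_upwards with a
    rw [inner_self_eq_norm_sq_to_K]
    push_cast
    rfl
  rw [h2] at h
  exact_mod_cast h.symm

lemma cs {α : Type*} [MeasurableSpace α] {μ : Measure α} [IsFiniteMeasure μ] (f : α → ℝ)
    (hf : Integrable f μ) (hf2 : Integrable (fun x => f x ^ 2) μ) (hm : 0 < μ.real univ) :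
    (∫ x, f x ∂μ) ^ 2 ≤ μ.real univ * ∫ x, f x ^ 2 ∂μ := by
  obtain ⟨A, hA⟩ : ∃ A, A = ∫ x, f x ∂μ := ⟨_, rfl⟩
  obtain ⟨B, hB⟩ : ∃ B, B = ∫ x, f x ^ 2 ∂μ := ⟨_, rfl⟩
  obtain ⟨m, hm'⟩ : ∃ m, m = μ.real univ := ⟨_, rfl⟩
  have h : 0 ≤ ∫ x, (m * f x - A) ^ 2 ∂μ := integral_nonneg (fun _ => sq_nonneg _)
  have e : ∫ x, (m * f x - A) ^ 2 ∂μ = m ^ 2 * B - 2 * m * A * A + A ^ 2 * m := by
    have e1 : ∀ x, (m * f x - A) ^ 2 = m ^ 2 * f x ^ 2 - 2 * m * A * f x + A ^ 2 := by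
      intro x; ring
    simp_rw [e1]
    rw [integral_add, integral_sub, integral_const_mul, integral_const_mul, integral_const,
      ← hA, ← hB, ← hm', smul_eq_mul]
    · ring
    · exact hf2.const_mul _
    · exact hf.const_mul _
    · exact (hf2.const_mul _).sub (hf.const_mul _)
    · exact integrable_const _
  rw [e] at h
  rw [← hA, ← hB, ← hm']
  rw [← hm'] at hm
  have h2 : 0 ≤ m * (m * B - A ^ 2) := by nlinarith
  have h3 := nonneg_of_mul_nonneg_right h2 hm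
  linarith

lemma ftc (f f' : ℝ → ℂ) (hf : ∀ s, HasDerivAt f (f' s) s) (hc : Continuous f') {p q u v : ℝ}
    (hu : u ∈ Icc p q) (hv : v ∈ Icc p q) : ‖f u - f v‖ ≤ ∫ s in Ioc p q, ‖f' s‖ := by
  have h1 : ∫ s in v..u, f' s = f u - f v :=
    intervalIntegral.integral_eq_sub_of_hasDerivAt (fun s _ => hf s) (hc.intervalIntegrable _ _)
  rw [← h1]
  refine (intervalIntegral.norm_integral_le_integral_norm_uIoc).trans ?_
  apply setIntegral_mono_set (hc.norm.integrableOn_Ioc) (ae_of_all _ (fun _ => norm_nonneg _))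
  exact LE.le.eventuallyLE (Ioc_subset_Ioc (le_min hv.1 hu.1) (max_le hv.2 hu.2))

lemma derX {φ : ℝ × ℝ → ℂ} (hφ : φ ∈ Core) (y s : ℝ) :
    HasDerivAt (fun s => φ (s, y)) (dX φ (s, y)) s := by
  have h1 : HasFDerivAt φ (fderiv ℝ φ (s, y)) (s, y) :=
    ((hφ.1.differentiable (by norm_num)) (s, y)).hasFDerivAt
  have h2 : HasDerivAt (fun s : ℝ => (s, y)) ((1 : ℝ), (0 : ℝ)) s :=
    (hasDerivAt_id s).prodMk (hasDerivAt_const s y)
  exact h1.comp_hasDerivAt s h2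

lemma derY {φ : ℝ × ℝ → ℂ} (hφ : φ ∈ Core) (x s : ℝ) :
    HasDerivAt (fun s => φ (x, s)) (dY φ (x, s)) s := by
  have h1 : HasFDerivAt φ (fderiv ℝ φ (x, s)) (x, s) :=
    ((hφ.1.differentiable (by norm_num)) (x, s)).hasFDerivAt
  have h2 : HasDerivAt (fun s : ℝ => (x, s)) ((0 : ℝ), (1 : ℝ)) s :=
    (hasDerivAt_const s x).prodMk (hasDerivAt_id s)
  exact h1.comp_hasDerivAt s h2

lemma contX {φ : ℝ × ℝ → ℂ} (hφ : φ ∈ Core) : Continuous (dX φ) :=
  (hφ.1.continuous_fderiv (by norm_num)).clm_apply continuous_const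

lemma contY {φ : ℝ × ℝ → ℂ} (hφ : φ ∈ Core) : Continuous (dY φ) :=
  (hφ.1.continuous_fderiv (by norm_num)).clm_apply continuous_const

lemma suppX {φ : ℝ × ℝ → ℂ} (hφ : φ ∈ Core) : HasCompactSupport (dX φ) :=
  hφ.2.fderiv_apply ℝ _

lemma suppY {φ : ℝ × ℝ → ℂ} (hφ : φ ∈ Core) : HasCompactSupport (dY φ) :=
  hφ.2.fderiv_apply ℝ _

lemma int_sq {f : ℝ × ℝ → ℂ} (hc : Continuous f) (hs : HasCompactSupport f) :
    Integrable (fun p => ‖f p‖ ^ 2) (volume : Measure (ℝ × ℝ)) := by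
  apply Continuous.integrable_of_hasCompactSupport (by fun_prop)
  exact hs.comp_left (g := fun z : ℂ => ‖z‖ ^ 2) (by simp)

lemma int_nm {f : ℝ × ℝ → ℂ} (hc : Continuous f) (hs : HasCompactSupport f) :
    Integrable (fun p => ‖f p‖) (volume : Measure (ℝ × ℝ)) := by
  apply Continuous.integrable_of_hasCompactSupport (by fun_prop)
  exact hs.comp_left (g := fun z : ℂ => ‖z‖) (by simp)

lemma int_f {f : ℝ × ℝ → ℂ} (hc : Continuous f) (hs : HasCompactSupport f) :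
    Integrable f (volume : Measure (ℝ × ℝ)) :=
  Continuous.integrable_of_hasCompactSupport hc hs

/-- the square -/
def Sq (a c h : ℝ) : Set (ℝ × ℝ) := Ioc a (a + h) ×ˢ Ioc c (c + h)

lemma sq_meas (a c h : ℝ) : MeasurableSet (Sq a c h) := measurableSet_Ioc.prod measurableSet_Ioc

lemma sq_restrict (a c h : ℝ) : (volume : Measure (ℝ × ℝ)).restrict (Sq a c h) =
    (volume.restrict (Ioc a (a + h))).prod (volume.restrict (Ioc c (c + h))) := by
  rw [Measure.prod_restrict]; rfl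

lemma sq_vol (a c h : ℝ) (hh : 0 < h) : (volume : Measure (ℝ × ℝ)) (Sq a c h) = ENNReal.ofReal (h * h) := by
  rw [Sq, Measure.volume_eq_prod, Measure.prod_prod, Real.volume_Ioc, Real.volume_Ioc,
    ← ENNReal.ofReal_mul (by linarith)]
  congr 1
  ring

/-- the pointwise bound -/
lemma point {φ : ℝ × ℝ → ℂ} (hφ : φ ∈ Core) (a c h : ℝ) (hh : 0 < h) (y : ℝ)
    (hy : y ∈ Ioc c (c + h)) :
    ‖φ (a, y) - (((h * h)⁻¹ : ℝ) : ℂ) * ∫ p in Sq a c h, φ p‖ ^ 2 ≤
      2 * h * (∫ s in Ioc a (a + h), ‖dX φ (s, y)‖ ^ 2) + 2 * ∫ p in Sq a c h, ‖dY φ p‖ ^ 2 := by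
  obtain ⟨α, hα⟩ : ∃ α, α = ∫ s in Ioc a (a + h), ‖dX φ (s, y)‖ := ⟨_, rfl⟩
  obtain ⟨B, hB⟩ : ∃ B, B = ∫ p in Sq a c h, ‖dY φ p‖ := ⟨_, rfl⟩
  have hfin : (volume : Measure (ℝ × ℝ)) (Sq a c h) ≠ ⊤ := by
    rw [sq_vol a c h hh]; exact ENNReal.ofReal_ne_top
  have : IsFiniteMeasure ((volume : Measure (ℝ × ℝ)).restrict (Sq a c h)) :=
    ⟨by rw [Measure.restrict_apply_univ]; exact hfin.lt_top⟩
  have hvol : ((volume : Measure (ℝ × ℝ)).restrict (Sq a c h)).real univ = h * h := by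
    rw [measureReal_restrict_apply_univ, measureReal_def, sq_vol a c h hh,
      ENNReal.toReal_ofReal (by positivity)]
  have hI : (volume.restrict (Ioc a (a + h))).real univ = h := by
    rw [measureReal_restrict_apply_univ, Real.volume_real_Ioc_of_le (by linarith)]
    ring
  have hJ : (volume.restrict (Ioc c (c + h))).real univ = h := by
    rw [measureReal_restrict_apply_univ, Real.volume_real_Ioc_of_le (by linarith)]
    ring
  have hφc : Continuous φ := hφ.1.continuous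
  have hint : IntegrableOn φ (Sq a c h) := (int_f hφc hφ.2).integrableOn
  -- first: the difference as an average
  have e1 : φ (a, y) - (((h * h)⁻¹ : ℝ) : ℂ) * ∫ p in Sq a c h, φ p =
      (((h * h)⁻¹ : ℝ) : ℂ) * ∫ p in Sq a c h, (φ (a, y) - φ p) := by
    rw [integral_sub (integrable_const _) hint, integral_const, hvol, mul_sub, Complex.real_smul,
      ← mul_assoc, ← Complex.ofReal_mul, inv_mul_cancel₀ (by positivity), Complex.ofReal_one, one_mul]
  -- the pointwise bound for the difference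
  have hβint : Integrable (fun x => ∫ s in Ioc c (c + h), ‖dY φ (x, s)‖)
      (volume.restrict (Ioc a (a + h))) := by
    have h1 : Integrable (fun p : ℝ × ℝ => ‖dY φ p‖)
        ((volume.restrict (Ioc a (a + h))).prod (volume.restrict (Ioc c (c + h)))) := by
      rw [← sq_restrict]
      exact (int_nm (contY hφ) (suppY hφ)).integrableOn
    exact h1.integral_prod_left
  have hβ2 : Integrable (fun p : ℝ × ℝ => ∫ s in Ioc c (c + h), ‖dY φ (p.1, s)‖)
      ((volume : Measure (ℝ × ℝ)).restrict (Sq a c h)) := by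
    rw [sq_restrict]
    exact hβint.comp_fst (volume.restrict (Ioc c (c + h)))
  have e2 : ‖∫ p in Sq a c h, (φ (a, y) - φ p)‖ ≤
      ∫ p in Sq a c h, (α + ∫ s in Ioc c (c + h), ‖dY φ (p.1, s)‖) := by
    refine (norm_integral_le_integral_norm _).trans ?_
    apply setIntegral_mono_on
    · exact ((integrable_const _).sub hint).norm
    · exact (integrable_const _).add hβ2
    · exact sq_meas a c h
    · rintro ⟨x, y'⟩ ⟨hx, hy'⟩
      simp only at hx hy' ⊢
      have h1 : ‖φ (a, y) - φ (x, y)‖ ≤ α := by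
        rw [hα]
        exact ftc (fun s => φ (s, y)) (fun s => dX φ (s, y)) (derX hφ y)
          ((contX hφ).comp (by fun_prop)) ⟨le_rfl, by linarith⟩ ⟨hx.1.le, hx.2⟩
      have h2 : ‖φ (x, y) - φ (x, y')‖ ≤ ∫ s in Ioc c (c + h), ‖dY φ (x, s)‖ :=
        ftc (fun s => φ (x, s)) (fun s => dY φ (x, s)) (derY hφ x)
          ((contY hφ).comp (by fun_prop)) ⟨hy.1.le, hy.2⟩ ⟨hy'.1.le, hy'.2⟩
      calc ‖φ (a, y) - φ (x, y')‖ = ‖(φ (a, y) - φ (x, y)) + (φ (x, y) - φ (x, y'))‖ := by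
            congr 1; ring
        _ ≤ _ := norm_add_le _ _
        _ ≤ _ := add_le_add h1 h2
  have e3 : ∫ p in Sq a c h, (α + ∫ s in Ioc c (c + h), ‖dY φ (p.1, s)‖) = h * h * α + h * B := by
    rw [integral_add (integrable_const _) hβ2, integral_const, hvol, smul_eq_mul]
    congr 1
    rw [sq_restrict, integral_prod _ (hβint.comp_fst (volume.restrict (Ioc c (c + h))))]
    simp only [integral_const, hJ, smul_eq_mul]
    rw [integral_const_mul, hB, sq_restrict, integral_prod]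
    rw [← sq_restrict]
    exact (int_nm (contY hφ) (suppY hφ)).integrableOn
  have hα0 : 0 ≤ α := by rw [hα]; exact integral_nonneg (fun _ => norm_nonneg _)
  have hB0 : 0 ≤ B := by rw [hB]; exact integral_nonneg (fun _ => norm_nonneg _)
  have e4 : ‖φ (a, y) - (((h * h)⁻¹ : ℝ) : ℂ) * ∫ p in Sq a c h, φ p‖ ≤ α + h⁻¹ * B := by
    rw [e1, norm_mul, Complex.norm_real, Real.norm_of_nonneg (by positivity)]
    calc (h * h)⁻¹ * ‖∫ p in Sq a c h, (φ (a, y) - φ p)‖ ≤ (h * h)⁻¹ * (h * h * α + h * B) :=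
          mul_le_mul_of_nonneg_left (e2.trans e3.le) (by positivity)
      _ = α + h⁻¹ * B := by field_simp
  -- Cauchy-Schwarz
  have c1 : α ^ 2 ≤ h * ∫ s in Ioc a (a + h), ‖dX φ (s, y)‖ ^ 2 := by
    have hc : Continuous fun s => dX φ (s, y) := (contX hφ).comp (by fun_prop)
    have := cs (μ := volume.restrict (Ioc a (a + h))) (fun s => ‖dX φ (s, y)‖)
      (hc.norm.integrableOn_Ioc) ((hc.norm.pow 2).integrableOn_Ioc) (by rw [hI]; exact hh)
    rw [hI] at this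
    rw [hα]
    exact this
  have c2 : B ^ 2 ≤ h * h * ∫ p in Sq a c h, ‖dY φ p‖ ^ 2 := by
    have := cs (μ := (volume : Measure (ℝ × ℝ)).restrict (Sq a c h)) (fun p => ‖dY φ p‖)
      (int_nm (contY hφ) (suppY hφ)).integrableOn (int_sq (contY hφ) (suppY hφ)).integrableOn
      (by rw [hvol]; positivity)
    rw [hvol] at this
    rw [hB]
    exact this
  have hn := norm_nonneg (φ (a, y) - (((h * h)⁻¹ : ℝ) : ℂ) * ∫ p in Sq a c h, φ p)
  have hb0 : 0 ≤ h⁻¹ * B := by positivity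
  have c3 : (h⁻¹ * B) ^ 2 ≤ ∫ p in Sq a c h, ‖dY φ p‖ ^ 2 := by
    rw [mul_pow]
    calc h⁻¹ ^ 2 * B ^ 2 ≤ h⁻¹ ^ 2 * (h * h * ∫ p in Sq a c h, ‖dY φ p‖ ^ 2) :=
          mul_le_mul_of_nonneg_left c2 (by positivity)
      _ = _ := by field_simp
  calc ‖φ (a, y) - (((h * h)⁻¹ : ℝ) : ℂ) * ∫ p in Sq a c h, φ p‖ ^ 2 ≤ (α + h⁻¹ * B) ^ 2 :=
        pow_le_pow_left₀ hn e4 2
    _ ≤ 2 * α ^ 2 + 2 * (h⁻¹ * B) ^ 2 := by nlinarith [sq_nonneg (α - h⁻¹ * B)]
    _ ≤ _ := by nlinarith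

/-- the bound on one piece of the wall -/
lemma piece {φ : ℝ × ℝ → ℂ} (hφ : φ ∈ Core) (a c h : ℝ) (hh : 0 < h) :
    ∫ y in Ioc c (c + h), ‖φ (a, y) - (((h * h)⁻¹ : ℝ) : ℂ) * ∫ p in Sq a c h, φ p‖ ^ 2 ≤
      2 * h * ∫ p in Sq a c h, (‖dX φ p‖ ^ 2 + ‖dY φ p‖ ^ 2) := by
  have hJ : (volume.restrict (Ioc c (c + h))).real univ = h := by
    rw [measureReal_restrict_apply_univ, Real.volume_real_Ioc_of_le (by linarith)]
    ring
  have hX : Integrable (fun p : ℝ × ℝ => ‖dX φ p‖ ^ 2)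
      ((volume.restrict (Ioc a (a + h))).prod (volume.restrict (Ioc c (c + h)))) := by
    rw [← sq_restrict]
    exact (int_sq (contX hφ) (suppX hφ)).integrableOn
  have h1 : ∫ y in Ioc c (c + h), ‖φ (a, y) - (((h * h)⁻¹ : ℝ) : ℂ) * ∫ p in Sq a c h, φ p‖ ^ 2 ≤
      ∫ y in Ioc c (c + h), (2 * h * (∫ s in Ioc a (a + h), ‖dX φ (s, y)‖ ^ 2) +
        2 * ∫ p in Sq a c h, ‖dY φ p‖ ^ 2) := by
    apply setIntegral_mono_on
    · have hφc : Continuous φ := hφ.1.continuous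
      apply Continuous.integrableOn_Ioc
      fun_prop
    · exact (hX.integral_prod_right.const_mul _).add (integrable_const _)
    · exact measurableSet_Ioc
    · intro y hy
      exact point hφ a c h hh y hy
  refine h1.trans (le_of_eq ?_)
  rw [integral_add (hX.integral_prod_right.const_mul _) (integrable_const _), integral_const_mul,
    integral_const, hJ, smul_eq_mul, integral_add (int_sq (contX hφ) (suppX hφ)).integrableOn
      (int_sq (contY hφ) (suppY hφ)).integrableOn, mul_add]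
  congr 1
  · rw [sq_restrict, integral_prod_symm _ hX]
  · ring

end

end Pool.Agent.U688.DE
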